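import Pool.Agent.Helper93.TCU.Stmts
import Pool.Agent.Helper93.TCU.Bas
import Pool.Agent.Helper3.TCS.Ret

/-!
# Ret: the probabilities of the events `retv`

Adapted from `Pool/Agent/Helper3/TCS/Ret.lean`.
-/

set_option autoImplicit false
set_option linter.unusedSectionVars false

namespace Pool.TCU

open Pool.TC Pool.TCM Pool.TCS Finset
open scoped Classical

section

variable {V κ : Type} [Fintype V] [Fintype κ] {S : CS V κ} {U : Finset V} {L : V → Finset κ}
  {D l m K : ℕ} {x : ℝ} {q : V → κ → ℝ} {Lam : ℝ} {o : V → κ}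

private theorem Ret_qc_le (hg : Cho S U L K o) {u : V} (hu : u ∈ U) :
    qc S U o u ≤ 2 * K := by
  have h1 := hg.kP u hu (o u) (hg.mem u hu)
  have h2 := hg.kR (S.r u (o u))
  unfold qc
  have h3 : (univ.filter fun w => w ∈ U ∧ conf S o u w) ⊆
      KP S U o u (o u) ∪ univ.filter (fun w => w ∈ U ∧ S.r w (o w) = S.r u (o u)) := by
    intro w hw
    obtain ⟨-, hwU, -, hc⟩ := mem_filter.1 hw
    rw [mem_union]
    rcases hc with ⟨hc1, hc2⟩ | hc
    · left
      unfold KP
      rw [mem_filter]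
      exact ⟨mem_univ _, hwU, hc1, hc2.symm⟩
    · right
      rw [mem_filter]
      exact ⟨mem_univ _, hwU, hc.symm⟩
  have h4 := (card_le_card h3).trans (card_union_le _ _)
  omega

private theorem Ret_Npos (h : Hyp S U L D l m K x q Lam) : 0 < m ^ (2 * K + 1) :=
  Nat.pow_pos (by have := h.m192; omega)

private theorem Ret_act_frac (h : Hyp S U L D l m K x q Lam) :
    ((m ^ (2 * K) : ℕ) : ℝ) / ((m ^ (2 * K + 1) : ℕ) : ℝ) = 1 / (m : ℝ) := by
  have hm := h.mpos
  push_cast
  rw [pow_succ]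
  field_simp

private theorem Ret_act_le (h : Hyp S U L D l m K x q Lam) : m ^ (2 * K) ≤ m ^ (2 * K + 1) :=
  Nat.pow_le_pow_right (by have := h.m192; omega) (Nat.le_succ _)

private theorem Ret_coin_le (_h : Hyp S U L D l m K x q Lam) {k : ℕ} (hk : k ≤ 2 * K) :
    (m - 1) ^ (2 * K - k) * m ^ (k + 1) ≤ m ^ (2 * K + 1) := by
  have h1 : m ^ (2 * K + 1) = m ^ (2 * K - k) * m ^ (k + 1) := by
    rw [← pow_add]
    congr 1
    omega
  rw [h1]
  exact Nat.mul_le_mul_right _ (Nat.pow_le_pow_left (Nat.sub_le _ _) _)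

private theorem Ret_coin_frac (h : Hyp S U L D l m K x q Lam) {k : ℕ} (hk : k ≤ 2 * K) :
    (((m - 1) ^ (2 * K - k) * m ^ (k + 1) : ℕ) : ℝ) / ((m ^ (2 * K + 1) : ℕ) : ℝ) =
      (1 - 1 / (m : ℝ)) ^ (2 * K - k) := by
  have hm := h.mpos
  have h1 : m ^ (2 * K + 1) = m ^ (2 * K - k) * m ^ (k + 1) := by
    rw [← pow_add]
    congr 1
    omega
  have h2 : 1 ≤ m := by have := h.m192; omega
  rw [h1]
  push_cast
  rw [Nat.cast_sub h2, Nat.cast_one, mul_div_mul_right _ _ (by positivity), ← div_pow]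
  congr 1
  field_simp

private theorem Ret_prod_im (h : Hyp S U L D l m K x q Lam) (u w : V) (A : Finset V) (hu : u ∉ A)
    (hw : w ∉ A) :
    ∏ t ∈ Ret_im κ A, (((Ret_B S U o m K u w t).card : ℕ) : ℝ) /
      Fintype.card (Fin (m ^ (2 * K + 1))) = (1 - 1 / (m : ℝ)) ^ A.card := by
  unfold Ret_im
  rw [prod_image (by
    intro a _ b _ hab
    exact Sum.inl_injective (Sum.inl_injective hab)), ← prod_const]
  refine prod_congr rfl fun v hv => ?_
  have h1 : v ≠ u := fun h => hu (h ▸ hv)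
  have h2 : v ≠ w := fun h => hw (h ▸ hv)
  show (((if v = u ∨ v = w then Ret_Fl _ (m ^ (2 * K))
      else (Ret_Fl _ (m ^ (2 * K)))ᶜ : Finset (Fin (m ^ (2 * K + 1)))).card : ℕ) : ℝ) / _ = _
  rw [if_neg (by rintro (h3 | h3); exacts [h1 h3, h2 h3]),
    Ret_Flc_frac (Ret_Npos h) (Ret_act_le h), Ret_act_frac h]

private theorem Ret_B_act (h : Hyp S U L D l m K x q Lam) (u w v : V) (hv : v = u ∨ v = w) :
    (((Ret_B S U o m K u w (Sum.inl (Sum.inl v))).card : ℕ) : ℝ) /
      Fintype.card (Fin (m ^ (2 * K + 1))) = 1 / (m : ℝ) := by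
  show (((if v = u ∨ v = w then Ret_Fl _ (m ^ (2 * K))
      else (Ret_Fl _ (m ^ (2 * K)))ᶜ : Finset (Fin (m ^ (2 * K + 1)))).card : ℕ) : ℝ) / _ = _
  rw [if_pos hv, Ret_Fl_frac (Ret_act_le h), Ret_act_frac h]

private theorem Ret_B_coin (h : Hyp S U L D l m K x q Lam) (u w v : V) (hv : qc S U o v ≤ 2 * K) :
    (((Ret_B S U o m K u w (Sum.inl (Sum.inr v))).card : ℕ) : ℝ) /
      Fintype.card (Fin (m ^ (2 * K + 1))) = (1 - 1 / (m : ℝ)) ^ (2 * K - qc S U o v) := by
  show (((Ret_Fl _ ((m - 1) ^ (2 * K - qc S U o v) * m ^ (qc S U o v + 1)) :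
    Finset (Fin (m ^ (2 * K + 1)))).card : ℕ) : ℝ) / _ = _
  rw [Ret_Fl_frac (Ret_coin_le h hv), Ret_coin_frac h hv]

/-- the first probability -/
private theorem Ret_one (hBox : St_Box) (h : Hyp S U L D l m K x q Lam)
    (hg : Cho S U L K o) {u : V} (hu : u ∈ U) :
    mean (fun ω => if retv S U o m K ω u then (1 : ℝ) else 0) = bet m K := by
  have : Nonempty (Fin (m ^ (2 * K + 1))) := ⟨⟨0, Ret_Npos h⟩⟩
  have hq := Ret_qc_le hg hu
  obtain ⟨T0, hT0⟩ : ∃ T0 : Finset (Lab V κ), T0 = insert (Sum.inl (Sum.inl u))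
    (insert (Sum.inl (Sum.inr u)) (Ret_im κ (Ret_N S U o u))) := ⟨_, rfl⟩
  rw [Ret_box hBox (fun ω => retv S U o m K ω u) T0 (Ret_B S U o m K u u) ?_]
  · rw [hT0, prod_insert, prod_insert, Ret_prod_im h u u _ (Ret_N_self u) (Ret_N_self u),
      Ret_B_act h u u u (Or.inl rfl), Ret_B_coin h u u u hq]
    · unfold bet
      have h1 : (Ret_N S U o u).card = qc S U o u := rfl
      rw [h1, ← pow_add]
      congr 2
      omega
    · unfold Ret_im
      simp
    · unfold Ret_im
      simp [Ret_N_self]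
  · intro ω
    rw [hT0]
    constructor
    · rintro ⟨-, h1, h2, h3⟩ t ht
      rw [mem_insert, mem_insert] at ht
      rcases ht with rfl | rfl | ht
      · show _ ∈ (if u = u ∨ u = u then _ else _)
        rw [if_pos (Or.inl rfl), Ret_Fl_mem]
        exact h1
      · exact (Ret_Fl_mem _).2 h2
      · unfold Ret_im at ht
        obtain ⟨v, hv, rfl⟩ := mem_image.1 ht
        have hvu : v ≠ u := fun h4 => Ret_N_self u (h4 ▸ hv)
        show _ ∈ (if v = u ∨ v = u then _ else _)
        rw [if_neg (by rintro (h4 | h4) <;> exact hvu h4), Ret_Flc_mem]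
        unfold Ret_N at hv
        exact h3 v (mem_filter.1 hv).2.1 (mem_filter.1 hv).2.2
    · intro h1
      refine ⟨hu, ?_, ?_, ?_⟩
      · have h2 := h1 (Sum.inl (Sum.inl u)) (mem_insert_self _ _)
        change _ ∈ (if u = u ∨ u = u then _ else _) at h2
        rw [if_pos (Or.inl rfl), Ret_Fl_mem] at h2
        exact h2
      · exact (Ret_Fl_mem _).1 (h1 (Sum.inl (Sum.inr u)) (mem_insert_of_mem (mem_insert_self _ _)))
      · intro w hw hc
        have hwN : w ∈ Ret_N S U o u := by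
          unfold Ret_N
          exact mem_filter.2 ⟨mem_univ _, hw, hc⟩
        have hwu : w ≠ u := fun h4 => Ret_N_self u (h4 ▸ hwN)
        have h2 := h1 (Sum.inl (Sum.inl w)) (mem_insert_of_mem (mem_insert_of_mem (by
          unfold Ret_im
          exact mem_image_of_mem _ hwN)))
        change _ ∈ (if w = u ∨ w = u then _ else _) at h2
        rw [if_neg (by rintro (h4 | h4) <;> exact hwu h4), Ret_Flc_mem] at h2
        exact h2

/-- the second probability -/
private theorem Ret_two (hBox : St_Box) (h : Hyp S U L D l m K x q Lam)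
    (hg : Cho S U L K o) {u w : V} (hu : u ∈ U) (hw : w ∈ U) (huw : u ≠ w)
    (hc : ¬ conf S o u w) :
    bet m K ^ 2 ≤
      mean (fun ω => if retv S U o m K ω u ∧ retv S U o m K ω w then (1 : ℝ) else 0) := by
  have : Nonempty (Fin (m ^ (2 * K + 1))) := ⟨⟨0, Ret_Npos h⟩⟩
  have hq := Ret_qc_le hg hu
  have hq' := Ret_qc_le hg hw
  have hα := h.al0
  have hα' := h.al1
  have hc' : ¬ conf S o w u := fun h1 => hc (Ret_conf_symm h1)
  obtain ⟨A, hA⟩ : ∃ A : Finset V, A = Ret_N S U o u ∪ Ret_N S U o w := ⟨_, rfl⟩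
  have huA : u ∉ A := by
    rw [hA, mem_union]
    rintro (h1 | h1)
    · exact Ret_N_self u h1
    · unfold Ret_N at h1
      exact hc' (mem_filter.1 h1).2.2
  have hwA : w ∉ A := by
    rw [hA, mem_union]
    rintro (h1 | h1)
    · unfold Ret_N at h1
      exact hc (mem_filter.1 h1).2.2
    · exact Ret_N_self w h1
  obtain ⟨T0, hT0⟩ : ∃ T0 : Finset (Lab V κ), T0 = insert (Sum.inl (Sum.inl u))
    (insert (Sum.inl (Sum.inl w)) (insert (Sum.inl (Sum.inr u)) (insert (Sum.inl (Sum.inr w))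
      (Ret_im κ A)))) := ⟨_, rfl⟩
  obtain ⟨E, hEE⟩ : ∃ E : (Lab V κ → Fin (m ^ (2 * K + 1))) → Prop,
    ∀ ω, E ω ↔ ∀ t ∈ T0, ω t ∈ Ret_B S U o m K u w t := ⟨_, fun _ => Iff.rfl⟩
  have h1 : mean (fun ω : Lab V κ → Fin (m ^ (2 * K + 1)) => if E ω then (1 : ℝ) else 0) ≤
      mean (fun ω => if retv S U o m K ω u ∧ retv S U o m K ω w then (1 : ℝ) else 0) := by
    refine Ret_mean_mono fun ω => ?_
    by_cases hE' : E ω
    · have hE := (hEE ω).1 hE'
      have e1 : ∀ v, v = u ∨ v = w → Sum.inl (Sum.inl v) ∈ T0 → actv m K ω v := by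
        intro v hv hvT
        have h2 := hE _ hvT
        change _ ∈ (if v = u ∨ v = w then _ else _) at h2
        rw [if_pos hv, Ret_Fl_mem] at h2
        exact h2
      have e2 : ∀ v ∈ A, ¬ actv m K ω v := by
        intro v hv
        have h2 := hE (Sum.inl (Sum.inl v)) (by
          rw [hT0]
          refine mem_insert_of_mem (mem_insert_of_mem (mem_insert_of_mem (mem_insert_of_mem ?_)))
          unfold Ret_im
          exact mem_image_of_mem _ hv)
        change _ ∈ (if v = u ∨ v = w then _ else _) at h2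
        rw [if_neg (by rintro (h4 | h4); exacts [huA (h4 ▸ hv), hwA (h4 ▸ hv)]),
          Ret_Flc_mem] at h2
        exact h2
      have e3 : ∀ v, Sum.inl (Sum.inr v) ∈ T0 → goodv S U o m K ω v := fun v hv =>
        (Ret_Fl_mem _).1 (hE _ hv)
      rw [if_pos hE', if_pos]
      refine ⟨⟨hu, e1 u (Or.inl rfl) (by rw [hT0]; simp), e3 u (by rw [hT0]; simp), ?_⟩,
        ⟨hw, e1 w (Or.inr rfl) (by rw [hT0]; simp), e3 w (by rw [hT0]; simp), ?_⟩⟩
      · intro v hv hcv
        apply e2
        rw [hA, mem_union]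
        left
        unfold Ret_N
        exact mem_filter.2 ⟨mem_univ _, hv, hcv⟩
      · intro v hv hcv
        apply e2
        rw [hA, mem_union]
        right
        unfold Ret_N
        exact mem_filter.2 ⟨mem_univ _, hv, hcv⟩
    · rw [if_neg hE']
      split_ifs <;> norm_num
  refine le_trans ?_ h1
  rw [Ret_box hBox E T0 (Ret_B S U o m K u w) hEE]
  rw [hT0, prod_insert, prod_insert, prod_insert, prod_insert, Ret_prod_im h u w A huA hwA,
    Ret_B_act h u w u (Or.inl rfl), Ret_B_act h u w w (Or.inr rfl), Ret_B_coin h u w u hq,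
    Ret_B_coin h u w w hq']
  · have h2 : A.card ≤ qc S U o u + qc S U o w := by
      rw [hA]
      exact card_union_le _ _
    have hγ0 : 0 ≤ 1 - 1 / (m : ℝ) := by linarith
    have hγ1 : 1 - 1 / (m : ℝ) ≤ 1 := by linarith
    have h3 : (1 - 1 / (m : ℝ)) ^ (qc S U o u + qc S U o w) ≤ (1 - 1 / (m : ℝ)) ^ A.card :=
      pow_le_pow_of_le_one hγ0 hγ1 h2
    have h4 : bet m K ^ 2 = 1 / (m : ℝ) * (1 / (m : ℝ) * ((1 - 1 / (m : ℝ)) ^ (2 * K - qc S U o u) *
        ((1 - 1 / (m : ℝ)) ^ (2 * K - qc S U o w) *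
          (1 - 1 / (m : ℝ)) ^ (qc S U o u + qc S U o w)))) := by
      unfold bet
      rw [← pow_add, ← pow_add]
      have h5 : 2 * K - qc S U o u + (2 * K - qc S U o w + (qc S U o u + qc S U o w)) =
        2 * K + 2 * K := by omega
      rw [h5, pow_add]
      ring
    rw [h4]
    refine mul_le_mul_of_nonneg_left (mul_le_mul_of_nonneg_left
      (mul_le_mul_of_nonneg_left (mul_le_mul_of_nonneg_left h3 ?_) ?_) hα.le) hα.le
    · positivity
    · positivity
  · unfold Ret_im
    simp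
  · unfold Ret_im
    simp [huw]
  · unfold Ret_im
    simp [hwA]
  · unfold Ret_im
    simp [huA, huw]

/-- the probability that `t` is active -/
private theorem Ret_act (hBox : St_Box) (h : Hyp S U L D l m K x q Lam) (t : V) :
    mean (fun ω : Lab V κ → Fin (m ^ (2 * K + 1)) => if actv m K ω t then (1 : ℝ) else 0) =
      1 / (m : ℝ) := by
  have : Nonempty (Fin (m ^ (2 * K + 1))) := ⟨⟨0, Ret_Npos h⟩⟩
  rw [Ret_box hBox (fun ω : Lab V κ → Fin (m ^ (2 * K + 1)) => actv m K ω t)
    {Sum.inl (Sum.inl t)} (fun _ => Ret_Fl (m ^ (2 * K + 1)) (m ^ (2 * K))) (by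
      intro ω
      constructor
      · intro h1 s hs
        rw [mem_singleton] at hs
        subst hs
        exact (Ret_Fl_mem _).2 h1
      · intro h1
        exact (Ret_Fl_mem _).1 (h1 _ (mem_singleton_self _))), prod_singleton,
    Ret_Fl_frac (Ret_act_le h), Ret_act_frac h]

/-- `retv u` does not depend on the activity of a vertex which is not in conflict with `u` -/
private theorem Ret_dep {u t : V} (hut : u ≠ t) (hc : ¬ conf S o u t)
    (ω ω' : Lab V κ → Fin (m ^ (2 * K + 1)))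
    (hω : ∀ s, s ≠ Sum.inl (Sum.inl t) → ω s = ω' s) :
    retv S U o m K ω u ↔ retv S U o m K ω' u := by
  have e1 : ∀ v, v ≠ t → (actv m K ω v ↔ actv m K ω' v) := by
    intro v hv
    unfold actv
    rw [hω (Sum.inl (Sum.inl v)) (fun h1 => hv (Sum.inl_injective (Sum.inl_injective h1)))]
  have e2 : goodv S U o m K ω u ↔ goodv S U o m K ω' u := by
    unfold goodv
    rw [hω (Sum.inl (Sum.inr u)) (fun h1 => by
      have h2 := Sum.inl_injective h1
      exact absurd h2 (by simp))]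
  unfold retv
  refine and_congr Iff.rfl (and_congr (e1 u hut) (and_congr e2 ?_))
  refine forall_congr' fun w => forall_congr' fun _ => forall_congr' fun hcw => ?_
  exact not_congr (e1 w fun h1 => hc (h1 ▸ hcw))

/-- the third probability -/
private theorem Ret_three (hBox : St_Box) (h : Hyp S U L D l m K x q Lam) {u w t : V}
    (hut : u ≠ t) (hwt : w ≠ t) (hcu : ¬ conf S o u t) (hcw : ¬ conf S o w t) :
    mean (fun ω => if retv S U o m K ω u ∧ retv S U o m K ω w ∧ retv S U o m K ω t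
      then (1 : ℝ) else 0) ≤
    1 / m * mean (fun ω => if retv S U o m K ω u ∧ retv S U o m K ω w then (1 : ℝ) else 0) := by
  have : Nonempty (Fin (m ^ (2 * K + 1))) := ⟨⟨0, Ret_Npos h⟩⟩
  have h1 := (hBox (Lab V κ) (Fin (m ^ (2 * K + 1)))).2 {Sum.inl (Sum.inl t)}
    (fun ω => if actv m K ω t then (1 : ℝ) else 0)
    (fun ω => if retv S U o m K ω u ∧ retv S U o m K ω w then (1 : ℝ) else 0)
    (by
      intro ω ω' hω
      refine if_congr ?_ rfl rfl
      unfold actv
      rw [hω _ (mem_singleton_self _)])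
    (by
      intro ω ω' hω
      refine if_congr ?_ rfl rfl
      have h2 : ∀ s, s ≠ Sum.inl (Sum.inl t) → ω s = ω' s := fun s hs =>
        hω s (fun h3 => hs (mem_singleton.1 h3))
      exact and_congr (Ret_dep hut hcu ω ω' h2) (Ret_dep hwt hcw ω ω' h2))
  have h2 := Ret_act (κ := κ) hBox h t
  have h3 : mean (fun ω : Lab V κ → Fin (m ^ (2 * K + 1)) =>
      if retv S U o m K ω u ∧ retv S U o m K ω w ∧ retv S U o m K ω t then (1 : ℝ) else 0) ≤
      mean (fun ω : Lab V κ → Fin (m ^ (2 * K + 1)) => (if actv m K ω t then (1 : ℝ) else 0) *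
        (if retv S U o m K ω u ∧ retv S U o m K ω w then (1 : ℝ) else 0)) := by
    refine Ret_mean_mono fun ω => ?_
    by_cases hω : retv S U o m K ω u ∧ retv S U o m K ω w ∧ retv S U o m K ω t
    · rw [if_pos hω, if_pos hω.2.2.2.1, if_pos ⟨hω.1, hω.2.1⟩, mul_one]
    · rw [if_neg hω]
      split_ifs <;> norm_num
  refine h3.trans (le_of_eq ?_)
  rw [← h2]
  refine Eq.trans (Ret_mean_congr fun ω => rfl) (h1.trans ?_)
  congr 1
  · exact Ret_mean_congr fun _ => rfl
  · exact Ret_mean_congr fun _ => rfl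

/-- the last part: a box of labels which are independent of `f` -/
private theorem Ret_indep (hBox : St_Box) (h : Hyp S U L D l m K x q Lam)
    (f : (Lab V κ → Fin (m ^ (2 * K + 1))) → ℝ)
    (hf : ∀ ω ω' : Lab V κ → Fin (m ^ (2 * K + 1)), (∀ t, ω (Sum.inl t) = ω' (Sum.inl t)) →
      f ω = f ω')
    (E : (Lab V κ → Fin (m ^ (2 * K + 1))) → Prop) [∀ ω, Decidable (E ω)]
    (T0 : Finset (V ⊕ (V × κ))) (c : V ⊕ (V × κ) → ℕ) (hc : ∀ t ∈ T0, c t ≤ m ^ (2 * K + 1))
    (hE : ∀ ω, E ω ↔ ∀ t ∈ T0, ¬ (ω (Sum.inr t)).val < c t) :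
    mean (fun ω => if E ω then f ω else 0) =
      mean f * ∏ t ∈ T0, (1 - ((c t : ℕ) : ℝ) / ((m ^ (2 * K + 1) : ℕ) : ℝ)) := by
  have : Nonempty (Fin (m ^ (2 * K + 1))) := ⟨⟨0, Ret_Npos h⟩⟩
  have h1 := (hBox (Lab V κ) (Fin (m ^ (2 * K + 1)))).2
    (univ.filter fun t : Lab V κ => ∃ s, t = Sum.inl s) f (fun ω => if E ω then (1 : ℝ) else 0)
    (by
      intro ω ω' hω
      refine hf ω ω' fun t => hω _ ?_
      rw [mem_filter]
      exact ⟨mem_univ _, t, rfl⟩) (by
      intro ω ω' hω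
      have h2 : ∀ t, ω (Sum.inr t) = ω' (Sum.inr t) := by
        intro t
        apply hω
        rw [mem_filter]
        rintro ⟨-, s, hs⟩
        exact absurd hs (by simp)
      refine if_congr ?_ rfl rfl
      rw [hE, hE]
      simp only [h2])
  have h2 : mean (fun ω => if E ω then f ω else 0) =
      mean f * mean (fun ω => if E ω then (1 : ℝ) else 0) := by
    refine Eq.trans (Ret_mean_congr fun ω => ?_) (h1.trans ?_)
    · by_cases hω : E ω
      · rw [if_pos hω, if_pos hω, mul_one]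
      · rw [if_neg hω, if_neg hω, mul_zero]
    · congr 1
      · exact Ret_mean_congr fun _ => rfl
      · exact Ret_mean_congr fun _ => rfl
  rw [h2]
  congr 1
  rw [Ret_box hBox E (T0.image Sum.inr) (fun t => match t with
      | Sum.inl _ => univ
      | Sum.inr t => (Ret_Fl (m ^ (2 * K + 1)) (c t))ᶜ) ?_]
  · rw [prod_image (by
      intro a _ b _ hab
      exact Sum.inr_injective hab)]
    refine prod_congr rfl fun t ht => ?_
    exact Ret_Flc_frac (Ret_Npos h) (hc t ht)
  · intro ω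
    rw [hE]
    constructor
    · intro h3 t ht
      obtain ⟨t', ht', rfl⟩ := mem_image.1 ht
      exact (Ret_Flc_mem _).2 (h3 t' ht')
    · intro h3 t ht
      exact (Ret_Flc_mem _).1 (h3 _ (mem_image_of_mem _ ht))

end

theorem thm_Ret (hBox : St_Box) : St_Ret := by
  intro V κ _ _ S U L D l m K x q Lam o h hg
  refine ⟨fun u hu => Ret_one hBox h hg hu,
    fun u hu w hw huw hc => Ret_two hBox h hg hu hw huw hc,
    fun u _ w _ t _ hut hwt hcu hcw => Ret_three hBox h hut hwt hcu hcw, ?_⟩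
  intro f hf v p tb tk htb htk
  rw [Ret_indep hBox h f hf
    (fun ω => ¬ (ω (Sum.inr (Sum.inl v))).val < tb ∧ ¬ (ω (Sum.inr (Sum.inr p))).val < tk)
    {Sum.inl v, Sum.inr p} (fun t => match t with
      | Sum.inl _ => tb
      | Sum.inr _ => tk) (by
        intro t ht
        rw [mem_insert, mem_singleton] at ht
        rcases ht with rfl | rfl
        · exact htb
        · exact htk) (by
        intro ω
        rw [forall_mem_insert]
        refine and_congr Iff.rfl ?_
        constructor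
        · intro h1 t ht
          rw [mem_singleton] at ht
          subst ht
          exact h1
        · intro h1
          exact h1 _ (mem_singleton_self _))]
  rw [prod_pair (by simp), mul_assoc]
  push_cast
  rfl

end Pool.TCU
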